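import Mathlib

set_option autoImplicit false

namespace Pool.Agent.Results.MP_32b555_nt.UniqueExtension

/-- `nu` is an upper quasi-density on `ℕ = {0, 1, 2, ...}`: axioms (F1), (F3), (F4 flat) and
the bound `nu X ≤ 1`. Here `k * X + h = {k x + h : x ∈ X}` for `h, k ∈ ℕ+`. -/
structure IsUpperQuasiDensityNat (nu : Set ℕ → ℝ) : Prop where
  univ_eq : nu Set.univ = 1
  union_le : ∀ X Y : Set ℕ, nu (X ∪ Y) ≤ nu X + nu Y
  affine_eq : ∀ (X : Set ℕ) (h k : ℕ+),
    nu ((fun x : ℕ => (k : ℕ) * x + (h : ℕ)) '' X) = 1 / (k : ℝ) * nu X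
  le_one : ∀ X : Set ℕ, nu X ≤ 1

/-- `mu` is an upper quasi-density on `ℕ+ = {1, 2, 3, ...}`: the same axioms over `ℕ+`. -/
structure IsUpperQuasiDensityPNat (mu : Set ℕ+ → ℝ) : Prop where
  univ_eq : mu Set.univ = 1
  union_le : ∀ X Y : Set ℕ+, mu (X ∪ Y) ≤ mu X + mu Y
  affine_eq : ∀ (X : Set ℕ+) (h k : ℕ+),
    mu ((fun x : ℕ+ => k * x + h) '' X) = 1 / (k : ℝ) * mu X
  le_one : ∀ X : Set ℕ+, mu X ≤ 1

/-- The shift `X ↦ X + 1` from subsets of `ℕ` to subsets of `ℕ+`. -/
def up (X : Set ℕ) : Set ℕ+ := Nat.succPNat '' X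

lemma up_univ : up Set.univ = Set.univ := by
  ext x
  simp only [up, Set.image_univ, Set.mem_range, Set.mem_univ, iff_true]
  exact ⟨PNat.natPred x, PNat.succPNat_natPred x⟩

lemma up_union (X Y : Set ℕ) : up (X ∪ Y) = up X ∪ up Y := Set.image_union _ _ _

/-- Pure shift by a positive integer on `ℕ+`. -/
lemma shift_eq {mu : Set ℕ+ → ℝ} (hmu : IsUpperQuasiDensityPNat mu) (X : Set ℕ+) (h : ℕ+) :
    mu ((fun x : ℕ+ => x + h) '' X) = mu X := by
  have := hmu.affine_eq X h 1
  simpa using this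

/-- The extension `X ↦ mu (X + 1)` satisfies the affine axiom. -/
lemma affine_up {mu : Set ℕ+ → ℝ} (hmu : IsUpperQuasiDensityPNat mu) (X : Set ℕ) (h k : ℕ+) :
    mu (up ((fun x : ℕ => (k : ℕ) * x + (h : ℕ)) '' X)) = 1 / (k : ℝ) * mu (up X) := by
  -- both sides are compared through a common translate
  rw [← hmu.affine_eq (up X) h k]
  have e : (fun x : ℕ+ => x + k) '' (up ((fun x : ℕ => (k : ℕ) * x + (h : ℕ)) '' X))
      = (fun x : ℕ+ => x + 1) '' ((fun x : ℕ+ => k * x + h) '' (up X)) := by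
    simp only [up, Set.image_image]
    apply Set.image_congr
    intro x _
    apply PNat.coe_injective
    simp only [PNat.add_coe, Nat.succPNat_coe, PNat.mul_coe, PNat.one_coe, Nat.succ_eq_add_one]
    ring
  rw [← shift_eq hmu _ k, e, shift_eq hmu _ 1]

/-- Every upper quasi-density on `ℕ+` has exactly one extension to an upper quasi-density
on `ℕ`. -/
theorem result (mu : Set ℕ+ → ℝ) (hmu : IsUpperQuasiDensityPNat mu) :
    ∃! nu : Set ℕ → ℝ, IsUpperQuasiDensityNat nu ∧
      ∀ X : Set ℕ+, nu ((fun x : ℕ+ => (x : ℕ)) '' X) = mu X := by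
  refine ⟨fun X => mu (up X), ⟨⟨?_, ?_, ?_, ?_⟩, ?_⟩, ?_⟩
  · simp only [up_univ]
    exact hmu.univ_eq
  · intro X Y
    simp only [up_union]
    exact hmu.union_le _ _
  · intro X h k
    exact affine_up hmu X h k
  · intro X
    exact hmu.le_one _
  · intro X
    have e : up ((fun x : ℕ+ => (x : ℕ)) '' X) = (fun x : ℕ+ => x + 1) '' X := by
      simp only [up, Set.image_image]
      apply Set.image_congr
      intro x _
      apply PNat.coe_injective
      simp
    show mu (up _) = mu X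
    rw [e, shift_eq hmu]
  · rintro nu ⟨hnu, hext⟩
    funext X
    have h1 := hnu.affine_eq X 1 1
    have e : (fun x : ℕ => ((1 : ℕ+) : ℕ) * x + ((1 : ℕ+) : ℕ)) '' X
        = (fun x : ℕ+ => (x : ℕ)) '' (up X) := by
      simp only [up, Set.image_image]
      apply Set.image_congr
      intro x _
      simp
    rw [e, hext] at h1
    simpa using h1.symm

end Pool.Agent.Results.MP_32b555_nt.UniqueExtension
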